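import Pool.Agent.Helper98.WF.St

/-!
# Project WF, module GEN: generalities on the spans of small polynomials
-/

set_option autoImplicit false

namespace Pool.Agent.Helper78.WF.M_GEN

open Pool.Agent.Helper98.WF
open Polynomial

theorem stGEN : StGEN := by
  classical
  intro F E _ _ _ L hL
  have h0 : L 0 = 0 := by
    have h := hL.con 0
    rwa [C_0] at h
  have h1 : L 1 = 0 := by
    have h := hL.con 1
    rwa [C_1] at h
  have hsm : ∀ d a, a.natDegree < d → L a ∈ Sm L d := by
    intro d a ha
    by_cases ha0 : a = 0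
    · rw [ha0, h0]; exact Submodule.zero_mem _
    · exact Submodule.subset_span ⟨a, ha0, ha, rfl⟩
  have hCmul : ∀ (c : F) (a : F[X]), c ≠ 0 → a ≠ 0 → L (C c * a) = L a := by
    intro c a hc ha
    rw [hL.mul _ _ (C_ne_zero.2 hc) ha, hL.con, zero_add]
  refine ⟨⟨h0, h1, ?_⟩, hsm, ?_, ?_, ?_, ?_, ?_⟩
  · intro a
    by_cases ha0 : a = 0
    · rw [ha0, neg_zero]
    · have h : -a = C (-1) * a := by simp
      rw [h, hCmul _ _ (by simp) ha0]
  · intro d e hde
    apply Submodule.span_mono
    rintro x ⟨a, ha0, had, rfl⟩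
    exact ⟨a, ha0, lt_of_lt_of_le had hde, rfl⟩
  · intro x hx
    have h : Sm L 1 ≤ ⊥ := by
      apply Submodule.span_le.2
      rintro x ⟨a, ha0, had, rfl⟩
      have h2 : a.natDegree = 0 := by omega
      rw [eq_C_of_natDegree_eq_zero h2]
      exact hL.con _
    exact (Submodule.mem_bot ℚ).1 (h hx)
  · intro d hd
    apply Submodule.span_le.2
    rintro x ⟨a, ha0, had, rfl⟩
    by_cases hlt : a.natDegree < d
    · exact Submodule.mem_sup_left (hsm d a hlt)
    · have hdeg : a.natDegree = d := by omega
      have hlc : a.leadingCoeff ≠ 0 := leadingCoeff_ne_zero.2 ha0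
      set b := C (a.leadingCoeff)⁻¹ * a with hb
      have hab : L b = L a := hCmul _ _ (inv_ne_zero hlc) ha0
      have hbm : b.Monic := by
        rw [hb, Monic, leadingCoeff_mul, leadingCoeff_C, inv_mul_cancel₀ hlc]
      have hbd : b.natDegree = d := by
        rw [hb, natDegree_C_mul (inv_ne_zero hlc), hdeg]
      show L a ∈ VT L d {P | PrD d P}
      rw [← hab]
      by_cases hirr : Irreducible b
      · exact Submodule.mem_sup_right (Submodule.subset_span ⟨b, ⟨hbm, hirr, hbd⟩, rfl⟩)
      · have hb1 : b ≠ 1 := by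
          intro h
          rw [h, natDegree_one] at hbd
          omega
        rw [hbm.irreducible_iff_natDegree] at hirr
        push Not at hirr
        obtain ⟨f, g, hf, hg, hfg, hf0, hg0⟩ := hirr hb1
        have hsum : f.natDegree + g.natDegree = d := by
          rw [← hbd, ← hfg, hf.natDegree_mul hg]
        rw [← hfg, hL.mul _ _ hf.ne_zero hg.ne_zero]
        apply Submodule.mem_sup_left
        exact Submodule.add_mem _ (hsm d f (by omega)) (hsm d g (by omega))
  · intro d T
    exact ⟨le_sup_left, fun P hP => Submodule.mem_sup_right (Submodule.subset_span ⟨P, hP, rfl⟩)⟩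
  · intro d T x hx
    obtain ⟨y, hy, z, hz, rfl⟩ := Submodule.mem_sup.1 hx
    obtain ⟨W, hW, hzW⟩ := Submodule.mem_span_finite_of_mem_span hz
    obtain ⟨T', hT', hT'W⟩ := Finset.subset_set_image_iff.1 hW
    refine ⟨T', hT', ?_⟩
    apply Submodule.add_mem
    · exact Submodule.mem_sup_left hy
    · apply Submodule.mem_sup_right
      rw [← hT'W, Finset.coe_image] at hzW
      exact hzW

end Pool.Agent.Helper78.WF.M_GEN
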